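import Pool.Agent.TH870.FRe
import Pool.Agent.TH870.FRf

/-!
# Reflection bodies and Minkowski asymmetry (the conjecture of Fary and Redei)

For a convex body `K` in dimension `d`, a point `x` of `K` and `α ≥ 1` with `-(K - x) ⊆ α (K - x)`,
`(α + 1) vol conv(K ∪ (2x - K)) ≤ (2 + (α - 1) ∑_i min(C(d,i), α^i, α^(d-i))) vol K`.

Proof. Put `x = 0`, `S(t) = (1-t)K - tK`, and let `E` be the set of all `(y, t)` with `y ∈ S(t)`,
`0 ≤ t ≤ 1`. Moving `E` by `±h` in the direction `t` adds the volume `2h vol conv(K ∪ -K)`, and the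
moved set lies, by `-K ⊆ α K`, in a copy of `(1 + 2κh) E`, `κ = (α-1)/(α+1)`, together with two caps
over `K` of height `(1-κ)h`. With `h → 0`,
`vol conv(K ∪ -K) ≤ κ (d+1) vol E + (1-κ) vol K`, and `(d+1) vol E = ∑_i V(K[i], -K[d-i])`.
The mixed volumes are at most `α^i vol K` and `α^(d-i) vol K` by monotonicity, and at most
`C(d,i) vol K` by Godbersen's inequality.
-/

set_option autoImplicit false

open MeasureTheory Set
open scoped Pointwise

namespace Pool.Agent.Results.MP_725e58_gt.AsymmetryBound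

open Pool.Agent.TH870.FR

/-- the reflection body `conv(K ∪ (2x - K))` -/
def reflectionBody {d : ℕ} (x : EuclideanSpace ℝ (Fin d)) (K : Set (EuclideanSpace ℝ (Fin d))) :
    Set (EuclideanSpace ℝ (Fin d)) :=
  convexHull ℝ (K ∪ (fun y => (2 : ℝ) • x - y) '' K)

/-- `-(K - x) ⊆ α (K - x)` -/
def AsymmetryAt {d : ℕ} (x : EuclideanSpace ℝ (Fin d)) (K : Set (EuclideanSpace ℝ (Fin d)))
    (α : ℝ) : Prop :=
  ∀ y ∈ K, ∃ z ∈ K, x - y = α • (z - x)

lemma bound {d : ℕ} {K : Set (EuclideanSpace ℝ (Fin d))} (hK : IsCompact K) (hc : Convex ℝ K)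
    (hi : (interior K).Nonempty) {x : EuclideanSpace ℝ (Fin d)} (hx : x ∈ K) {α : ℝ} (hα : 1 ≤ α)
    (hA : AsymmetryAt x K α) :
    (α + 1) * (volume (reflectionBody x K)).toReal ≤
      (2 + (α - 1) * ∑ i ∈ Finset.range (d + 1), min (d.choose i : ℝ) (min (α ^ i) (α ^ (d - i)))) *
        (volume K).toReal := by
  -- translate `x` to `0`
  set f : EuclideanSpace ℝ (Fin d) → EuclideanSpace ℝ (Fin d) := fun y => y + -x with hf
  set K' : Set (EuclideanSpace ℝ (Fin d)) := f '' K with hK'
  have hKc' : IsCompact K' := hK.image (by fun_prop)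
  have hcv' : Convex ℝ K' := by
    have h1 := hc.translate (-x)
    have : K' = (fun z => -x + z) '' K := by
      rw [hK', hf]
      exact image_congr fun y _ => add_comm _ _
    rw [this]; exact h1
  have hint : (interior K').Nonempty := by
    have h1 := (Homeomorph.addRight (-x)).image_interior K
    have h2 : interior K' = (Homeomorph.addRight (-x)) '' interior K := h1.symm
    rw [h2]
    exact hi.image _
  have h0 : (0 : EuclideanSpace ℝ (Fin d)) ∈ K' := ⟨x, hx, by simp [hf]⟩
  have hneg : ∀ y ∈ K', ∃ z ∈ K', -y = α • z := by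
    rintro _ ⟨y, hy, rfl⟩
    obtain ⟨z, hz, e⟩ := hA y hy
    refine ⟨f z, ⟨z, hz, rfl⟩, ?_⟩
    simp only [hf]
    rw [neg_add, neg_neg, ← sub_eq_add_neg z x, ← e]
    abel
  have hvol : volume K' = volume K := by
    rw [hK', hf, image_add_right, measure_preimage_add_right]
  have hmain := mainA hKc' hcv' h0 hα hneg (volE2 hKc' hcv' hint hα hneg)
  rw [hvol] at hmain
  have hsub : reflectionBody x K ⊆ (fun w => w + x) '' R K' := by
    refine convexHull_min ?_ ?_
    · rintro y (hy | ⟨z, hz, rfl⟩)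
      · refine ⟨y + -x, ⟨(y + -x, 0), ⟨le_rfl, zero_le_one, f y, ⟨y, hy, rfl⟩, f y, ⟨y, hy, rfl⟩, ?_⟩,
          rfl⟩, by simp⟩
        simp [hf]
      · refine ⟨-(z + -x), ⟨(-(z + -x), 1), ⟨zero_le_one, le_rfl, f z, ⟨z, hz, rfl⟩, f z, ⟨z, hz, rfl⟩,
          ?_⟩, rfl⟩, ?_⟩
        · simp [hf]
        · simp only
          rw [two_smul]
          abel
    · have h1 := (R_convex hcv').translate x
      have : (fun w => w + x) '' R K' = (fun z => x + z) '' R K' := image_congr fun y _ => add_comm _ _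
      rw [this]; exact h1
  have hRv : volume ((fun w => w + x) '' R K') = volume (R K') := by
    rw [image_add_right, measure_preimage_add_right]
  have hle : (volume (reflectionBody x K)).toReal ≤ (volume (R K')).toReal := by
    refine ENNReal.toReal_mono (R_compact hKc').measure_lt_top.ne ?_
    rw [← hRv]
    exact measure_mono hsub
  calc (α + 1) * (volume (reflectionBody x K)).toReal ≤ (α + 1) * (volume (R K')).toReal :=
        mul_le_mul_of_nonneg_left hle (by linarith)
    _ ≤ _ := hmain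
    _ = _ := by
        simp only [mi]
        ring

/-- `T d = ∑_i min(α^i, α^(d-i))` -/
lemma power_sum {α : ℝ} (hα : 1 ≤ α) (d : ℕ) :
    ∑ i ∈ Finset.range (d + 2 + 1), min (α ^ i) (α ^ (d + 2 - i)) =
      2 + α * ∑ i ∈ Finset.range (d + 1), min (α ^ i) (α ^ (d - i)) := by
  have hα0 : 0 ≤ α := by linarith
  rw [Finset.sum_range_succ, Finset.sum_range_succ', Finset.mul_sum]
  have h1 : min (α ^ (d + 2)) (α ^ (d + 2 - (d + 2))) = 1 := by
    rw [Nat.sub_self, pow_zero]
    exact min_eq_right (one_le_pow₀ hα)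
  have h2 : min (α ^ 0) (α ^ (d + 2 - 0)) = 1 := by
    rw [pow_zero]
    exact min_eq_left (one_le_pow₀ hα)
  rw [h1, h2]
  have h3 : ∀ i ∈ Finset.range (d + 1), min (α ^ (i + 1)) (α ^ (d + 2 - (i + 1))) =
      α * min (α ^ i) (α ^ (d - i)) := by
    intro i hi
    have : d + 2 - (i + 1) = (d - i) + 1 := by
      have := Finset.mem_range.1 hi
      omega
    rw [this, pow_succ, pow_succ, mul_min_of_nonneg _ _ hα0, mul_comm α, mul_comm α]
  rw [Finset.sum_congr rfl h3]
  ring

lemma even_sum {α : ℝ} (hα : 1 ≤ α) (k : ℕ) :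
    2 + (α - 1) * ∑ i ∈ Finset.range (2 * k + 1), min (α ^ i) (α ^ (2 * k - i)) = (α + 1) * α ^ k := by
  induction k with
  | zero => simp; ring
  | succ k ih =>
    have h := power_sum hα (2 * k)
    have e : 2 * (k + 1) = 2 * k + 2 := by ring
    rw [e, h]
    linear_combination α * ih

lemma odd_sum {α : ℝ} (hα : 1 ≤ α) (k : ℕ) :
    2 + (α - 1) * ∑ i ∈ Finset.range (2 * k + 1 + 1), min (α ^ i) (α ^ (2 * k + 1 - i)) =
      2 * α ^ (k + 1) := by
  induction k with
  | zero =>
    have h1 : min 1 α = 1 := min_eq_left hα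
    have h2 : min α 1 = 1 := min_eq_right hα
    simp [Finset.sum_range_succ, h1, h2]
    ring
  | succ k ih =>
    have h := power_sum hα (2 * k + 1)
    have e : 2 * (k + 1) + 1 = 2 * k + 1 + 2 := by ring
    rw [e, h]
    linear_combination α * ih

/-- **Reflection bodies and Minkowski asymmetry.** -/
theorem result (d : ℕ) (K : Set (EuclideanSpace ℝ (Fin d))) (hK : IsCompact K) (hc : Convex ℝ K)
    (hi : (interior K).Nonempty) :
    -- the bound in terms of the asymmetry of `K` about `x`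
    (∀ x ∈ K, ∀ α : ℝ, 1 ≤ α → AsymmetryAt x K α →
      (α + 1) * (volume (reflectionBody x K)).toReal ≤
        (2 + (α - 1) * ∑ i ∈ Finset.range (d + 1), min (d.choose i : ℝ) (min (α ^ i) (α ^ (d - i)))) *
          (volume K).toReal) ∧
    -- a bound for all convex bodies
    (1 ≤ d → ∃ x ∈ K, (volume (reflectionBody x K)).toReal ≤
      (((d : ℝ) - 1) * 2 ^ d + 2) / ((d : ℝ) + 1) * (volume K).toReal) ∧
    -- the conjecture of Fary and Redei if the asymmetry is small
    (∀ x ∈ K, ∀ α : ℝ, 1 ≤ α → AsymmetryAt x K α → ∀ k : ℕ,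
      (d = 2 * k ∧ α ^ k ≤ (d.choose (d / 2) : ℝ)) ∨
        (d = 2 * k + 1 ∧ 2 * α ^ (k + 1) ≤ (α + 1) * (d.choose (d / 2) : ℝ)) →
      volume (reflectionBody x K) ≤ ((d.choose (d / 2) : ℕ) : ENNReal) * volume K) := by
  have hVf : volume K ≠ ⊤ := hK.measure_lt_top.ne
  have hV0 : 0 ≤ (volume K).toReal := ENNReal.toReal_nonneg
  refine ⟨fun x hx α hα hA => bound hK hc hi hx hα hA, ?_, ?_⟩
  · intro hd
    obtain ⟨x, hx, hA⟩ := exists_point hd hK hc (hi.mono interior_subset)
    have hd1 : (1:ℝ) ≤ d := by exact_mod_cast hd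
    have h1 := bound hK hc hi hx hd1 hA
    refine ⟨x, hx, ?_⟩
    have hs : ∑ i ∈ Finset.range (d + 1), min (d.choose i : ℝ) (min ((d : ℝ) ^ i) ((d : ℝ) ^ (d - i))) ≤
        2 ^ d := by
      have h2 : (∑ i ∈ Finset.range (d + 1), (d.choose i : ℝ)) = 2 ^ d := by
        exact_mod_cast Nat.sum_range_choose d
      rw [← h2]
      exact Finset.sum_le_sum fun i _ => min_le_left _ _
    have hd2 : (0:ℝ) < (d : ℝ) + 1 := by linarith
    rw [div_mul_eq_mul_div, le_div_iff₀ hd2, mul_comm]
    refine h1.trans (mul_le_mul_of_nonneg_right ?_ hV0)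
    have := mul_le_mul_of_nonneg_left hs (by linarith : (0:ℝ) ≤ d - 1)
    linarith
  · intro x hx α hα hA k hk
    have h1 := bound hK hc hi hx hα hA
    have hα1 : 0 < α + 1 := by linarith
    have hRf : volume (reflectionBody x K) ≠ ⊤ := by
      have : Bornology.IsBounded (reflectionBody x K) :=
        isBounded_convexHull.2 (hK.union (hK.image (by fun_prop))).isBounded
      exact this.measure_lt_top.ne
    have hs : ∑ i ∈ Finset.range (d + 1), min (d.choose i : ℝ) (min (α ^ i) (α ^ (d - i))) ≤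
        ∑ i ∈ Finset.range (d + 1), min (α ^ i) (α ^ (d - i)) :=
      Finset.sum_le_sum fun i _ => min_le_right _ _
    have h2 : 2 + (α - 1) * ∑ i ∈ Finset.range (d + 1), min (d.choose i : ℝ) (min (α ^ i) (α ^ (d - i))) ≤
        (α + 1) * (d.choose (d / 2) : ℝ) := by
      have h3 := mul_le_mul_of_nonneg_left hs (by linarith : (0:ℝ) ≤ α - 1)
      rcases hk with ⟨hd, hb⟩ | ⟨hd, hb⟩
      · have h4 := even_sum hα k
        rw [← hd] at h4
        have h5 := mul_le_mul_of_nonneg_left hb hα1.le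
        linarith
      · have h4 := odd_sum hα k
        rw [← hd] at h4
        linarith
    have h6 : (volume (reflectionBody x K)).toReal ≤ (d.choose (d / 2) : ℝ) * (volume K).toReal := by
      have h7 := h1.trans (mul_le_mul_of_nonneg_right h2 hV0)
      rw [mul_assoc] at h7
      exact le_of_mul_le_mul_left h7 hα1
    rw [← ENNReal.toReal_le_toReal hRf (ENNReal.mul_ne_top (ENNReal.natCast_ne_top _) hVf),
      ENNReal.toReal_mul, ENNReal.toReal_natCast]
    exact h6

end Pool.Agent.Results.MP_725e58_gt.AsymmetryBound
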